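import Pool.Agent.R627.AC.Stm

/-!
AC8: `|coeff_m (Z² B)| ≤ m+1` for a Schur function `B` and `|z_i| ≤ 1`.
-/
namespace Pool.Agent.H997.AC

open PowerSeries Metric ComplexConjugate MeasureTheory Topology Pool.Agent.R194.Baz Pool.Agent.R627.AC

/-- truncation as a function -/
noncomputable def tr (Z : PowerSeries ℂ) (n : ℕ) (z : ℂ) : ℂ :=
  ∑ j ∈ Finset.range n, coeff j Z * z ^ j

lemma tr_diff (Z : PowerSeries ℂ) (n : ℕ) : Differentiable ℂ (tr Z n) := by
  unfold tr
  fun_prop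

lemma tr_an (Z : PowerSeries ℂ) (n : ℕ) (z : ℂ) : AnalyticAt ℂ (tr Z n) z :=
  (tr_diff Z n).analyticAt z

lemma tay_pow (n : ℕ) : tay (fun z => z ^ n) = X ^ n := by
  induction n with
  | zero =>
    simp only [pow_zero]
    rw [tay_const]; simp
  | succ n ih =>
    have h : (fun z : ℂ => z ^ (n + 1)) = fun z => z ^ n * z := by
      funext z; rw [pow_succ]
    rw [h, tay_mul (f := fun z => z ^ n) (g := fun z => z) (by fun_prop) (by fun_prop), ih, tay_id,
      pow_succ]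

lemma tay_tr (Z : PowerSeries ℂ) (n : ℕ) :
    tay (tr Z n) = ∑ j ∈ Finset.range n, C (coeff j Z) * X ^ j := by
  induction n with
  | zero =>
    have h : tr Z 0 = fun _ => 0 := by funext z; simp [tr]
    rw [h, tay_const]; simp
  | succ n ih =>
    have h : tr Z (n + 1) = fun z => tr Z n z + coeff n Z * z ^ n := by
      funext z; simp only [tr]; rw [Finset.sum_range_succ]
    rw [h, tay_add (tr_an Z n 0) (by fun_prop), ih, Finset.sum_range_succ,
      tay_const_mul (f := fun z => z ^ n) _ (by fun_prop), tay_pow]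

lemma coeff_tay_tr (Z : PowerSeries ℂ) (n k : ℕ) :
    coeff k (tay (tr Z n)) = if k < n then coeff k Z else 0 := by
  rw [tay_tr, map_sum]
  simp only [coeff_C_mul, coeff_X_pow, mul_ite, mul_one, mul_zero]
  rw [Finset.sum_ite_eq (Finset.range n) k (fun j => coeff j Z)]
  simp

lemma dvd_tr (Z : PowerSeries ℂ) (n : ℕ) : (X : PowerSeries ℂ) ^ n ∣ Z - tay (tr Z n) := by
  rw [X_pow_dvd_iff]
  intro k hk
  rw [map_sub, coeff_tay_tr, if_pos hk, sub_self]

lemma parseval (Z : PowerSeries ℂ) (n : ℕ) {r : ℝ} (h0 : 0 < r) (h1 : r < 1) :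
    ∫ θ in (0:ℝ)..2 * Real.pi, ‖tr Z n (circleMap 0 r θ)‖ ^ 2 =
      2 * Real.pi * ∑ j ∈ Finset.range n, ‖coeff j Z‖ ^ 2 * (r ^ j) ^ 2 := by
  have hd : DifferentiableOn ℂ (tr Z n) (ball 0 1) := (tr_diff Z n).differentiableOn
  have key : ∫ θ in (0:ℝ)..2 * Real.pi, ((‖tr Z n (circleMap 0 r θ)‖ ^ 2 : ℝ) : ℂ) =
      2 * Real.pi * ∑ j ∈ Finset.range n, ((‖coeff j Z‖ ^ 2 * (r ^ j) ^ 2 : ℝ) : ℂ) := by
    have e : ∀ θ : ℝ, ((‖tr Z n (circleMap 0 r θ)‖ ^ 2 : ℝ) : ℂ) =
        ∑ j ∈ Finset.range n, (conj (coeff j Z) * (r:ℂ) ^ j) *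
          (Complex.exp (-(θ * Complex.I)) ^ j * tr Z n (circleMap 0 r θ)) := by
      intro θ
      have h : ((‖tr Z n (circleMap 0 r θ)‖ ^ 2 : ℝ) : ℂ) =
          conj (tr Z n (circleMap 0 r θ)) * tr Z n (circleMap 0 r θ) := by
        rw [← Complex.normSq_eq_norm_sq, Complex.normSq_eq_conj_mul_self]
      have hc : conj (tr Z n (circleMap 0 r θ)) = ∑ j ∈ Finset.range n,
          conj (coeff j Z) * (r:ℂ) ^ j * Complex.exp (-(θ * Complex.I)) ^ j := by
        rw [tr, map_sum]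
        refine Finset.sum_congr rfl fun j _ => ?_
        have := conj_exp θ 1
        rw [pow_one, pow_one] at this
        rw [map_mul, map_pow, cm_eq, map_mul, Complex.conj_ofReal, mul_pow, this]
        ring
      rw [h, hc, Finset.sum_mul]
      refine Finset.sum_congr rfl fun j _ => ?_
      ring
    simp_rw [e]
    rw [intervalIntegral.integral_finsetSum]
    · rw [Finset.mul_sum]
      refine Finset.sum_congr rfl fun j hj => ?_
      rw [intervalIntegral.integral_const_mul, four1 hd h0 h1, coeff_tay_tr,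
        if_pos (Finset.mem_range.1 hj)]
      have h := Complex.normSq_eq_conj_mul_self (z := coeff j Z)
      rw [Complex.normSq_eq_norm_sq] at h
      push_cast at h ⊢
      rw [h]
      ring
    · intro j _
      have c1 : Continuous fun θ : ℝ => Complex.exp (-(θ * Complex.I)) ^ j := by fun_prop
      exact ((c1.mul (q_cont hd h0 h1)).intervalIntegrable _ _).const_mul _
  rw [intervalIntegral.integral_ofReal] at key
  have := congrArg Complex.re key
  rw [Complex.ofReal_re] at this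
  rw [this]
  have h2 : (2 * (Real.pi:ℂ) * ∑ j ∈ Finset.range n, ((‖coeff j Z‖ ^ 2 * (r ^ j) ^ 2 : ℝ) : ℂ)) =
      ((2 * Real.pi * ∑ j ∈ Finset.range n, ‖coeff j Z‖ ^ 2 * (r ^ j) ^ 2 : ℝ) : ℂ) := by
    push_cast; rfl
  rw [h2, Complex.ofReal_re]

theorem toep : StToep := by
  intro B Z hB hB1 hZ m
  have hm1 : (0:ℝ) ≤ (m:ℝ) + 1 := by positivity
  -- replace Z by the truncation
  have hBan : AnalyticAt ℂ B 0 := hB.analyticAt (ball_mem_nhds _ one_pos)
  have e1 : coeff m (Z * Z * tay B) = coeff m (tay (fun z => tr Z (m + 1) z * tr Z (m + 1) z * B z)) := by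
    rw [tay_mul (f := fun z => tr Z (m + 1) z * tr Z (m + 1) z) (g := B)
      ((tr_an Z _ 0).mul (tr_an Z _ 0)) hBan, tay_mul (tr_an Z _ 0) (tr_an Z _ 0)]
    have h : (X : PowerSeries ℂ) ^ (m + 1) ∣ Z * Z * tay B -
        tay (tr Z (m + 1)) * tay (tr Z (m + 1)) * tay B := by
      have h2 : Z * Z * tay B - tay (tr Z (m + 1)) * tay (tr Z (m + 1)) * tay B =
          (Z - tay (tr Z (m + 1))) * ((Z + tay (tr Z (m + 1))) * tay B) := by ring
      rw [h2]
      exact (dvd_tr Z (m + 1)).mul_right _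
    have h3 := X_pow_dvd_iff.1 h m (Nat.lt_succ_self m)
    rw [map_sub, sub_eq_zero] at h3
    exact h3
  rw [e1]
  set F : ℂ → ℂ := fun z => tr Z (m + 1) z * tr Z (m + 1) z * B z with hF
  have hFd : DifferentiableOn ℂ F (ball 0 1) :=
    (((tr_diff Z _).differentiableOn).mul ((tr_diff Z _).differentiableOn)).mul hB
  have hpi : (0:ℝ) < 2 * Real.pi := by positivity
  have bound : ∀ r : ℝ, 0 < r → r < 1 → r ^ m * ‖coeff m (tay F)‖ ≤ m + 1 := by
    intro r h0 h1
    have h := four1 hFd h0 h1 m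
    have hn : ‖∫ θ in (0:ℝ)..2 * Real.pi, Complex.exp (-(θ * Complex.I)) ^ m *
        F (circleMap 0 r θ)‖ ≤ ∫ θ in (0:ℝ)..2 * Real.pi, ‖tr Z (m + 1) (circleMap 0 r θ)‖ ^ 2 := by
      refine intervalIntegral.norm_integral_le_of_norm_le hpi.le ?_ ?_
      · refine Filter.Eventually.of_forall fun θ _ => ?_
        have he : ‖Complex.exp (-(θ * Complex.I))‖ = 1 := by
          rw [← neg_mul, ← Complex.ofReal_neg]; exact Complex.norm_exp_ofReal_mul_I _
        rw [norm_mul, norm_pow, he, one_pow, one_mul, hF]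
        simp only [norm_mul]
        have hb := hB1 _ (cm_mem h0 h1 θ)
        have hnn : 0 ≤ ‖tr Z (m + 1) (circleMap 0 r θ)‖ := norm_nonneg _
        nlinarith [mul_nonneg hnn hnn]
      · have hc : Continuous fun θ : ℝ => ‖tr Z (m + 1) (circleMap 0 r θ)‖ ^ 2 :=
          ((q_cont (tr_diff Z _).differentiableOn h0 h1).norm).pow 2
        exact hc.intervalIntegrable _ _
    rw [h, parseval Z (m + 1) h0 h1] at hn
    rw [norm_mul, norm_mul, norm_mul, norm_pow, Complex.norm_real, Complex.norm_real,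
      Complex.norm_ofNat, Real.norm_of_nonneg Real.pi_pos.le, Real.norm_of_nonneg h0.le] at hn
    have hs : ∑ j ∈ Finset.range (m + 1), ‖coeff j Z‖ ^ 2 * (r ^ j) ^ 2 ≤ (m:ℝ) + 1 := by
      calc ∑ j ∈ Finset.range (m + 1), ‖coeff j Z‖ ^ 2 * (r ^ j) ^ 2
          ≤ ∑ j ∈ Finset.range (m + 1), (1:ℝ) := by
            refine Finset.sum_le_sum fun j _ => ?_
            have a1 : ‖coeff j Z‖ ^ 2 ≤ 1 := pow_le_one₀ (norm_nonneg _) (hZ j)
            have a2 : (r ^ j) ^ 2 ≤ 1 := pow_le_one₀ (by positivity) (pow_le_one₀ h0.le h1.le)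
            have a3 : 0 ≤ ‖coeff j Z‖ ^ 2 := by positivity
            have a4 : 0 ≤ (r ^ j) ^ 2 := by positivity
            nlinarith
        _ = (m:ℝ) + 1 := by simp
    have := le_of_mul_le_mul_left hn hpi
    exact this.trans hs
  -- r → 1
  have hlim : Filter.Tendsto (fun r : ℝ => r ^ m * ‖coeff m (tay F)‖) (𝓝[<] 1)
      (𝓝 ((1:ℝ) ^ m * ‖coeff m (tay F)‖)) := by
    refine Filter.Tendsto.mono_left ?_ nhdsWithin_le_nhds
    exact (Continuous.tendsto (by fun_prop) 1)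
  rw [one_pow, one_mul] at hlim
  refine le_of_tendsto hlim ?_
  have h01 : Set.Ioo (0:ℝ) 1 ∈ 𝓝[<] (1:ℝ) := Ioo_mem_nhdsLT one_pos
  filter_upwards [h01] with r hr
  exact bound r hr.1 hr.2

end Pool.Agent.H997.AC
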